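import Pool.Agent.Work.MP_413ea6_mp.FerroC
import Pool.Agent.Work.MP_413ea6_mp.FerroD

open Filter Topology Pool.Agent.Work.MP_413ea6_mp

namespace Pool.Agent.Results.MP_413ea6_mp.FerroFails

theorem result (a b c : ℝ) (ha : 0 < a) (hb : 0 < b) (hc : 0 < c) (hba : b < a)
    (hΔ : 3 * √2 / 4 < Delta a b c) :
    frontier (frozenRegion a b c) ∩ Set.Ioo 0 1 ×ˢ Set.Ioo 0 1 =
        {p : ℝ × ℝ | p.1 = p.2} ∩ Set.Ioo 0 1 ×ˢ Set.Ioo 0 1 ∧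
      (∃ z0 : ℝ, 1 < z0 ∧ lam a b c z0 < 1 ∧
        ∀ z ∈ Set.Icc 1 z0, Tendsto (fun N => rN N a b c z) atTop (𝓝 0)) ∧
      ∀ r : ℝ → ℝ, ¬ (frontier (frozenRegion a b c) ∩ Set.Ioo 0 1 ×ˢ Set.Ioo 0 1 ⊆
        curve a b c r) := by
  have h1 := ferro_frontier ha hb hc hba hΔ
  refine ⟨h1, ferro_rN ha hb hc hba hΔ, fun r h => ?_⟩
  rw [h1] at h
  have h2 : Set.Ioo (0 : ℝ) 1 ⊆ {s : ℝ | (s, s) ∈ curve a b c r} :=
    fun s hs => h ⟨rfl, hs, hs⟩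
  have h3 := MeasureTheory.measure_mono_null h2 (curve_null ha hb hc r)
  simp at h3

end Pool.Agent.Results.MP_413ea6_mp.FerroFails
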