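import Pool.Agent.Work.MP_413ea6_mp.Final

open Filter Topology Pool.Agent.Work.MP_413ea6_mp

namespace Pool.Agent.Results.MP_413ea6_mp.TangentFKG

theorem result (a b c : ℝ) (ha : 0 < a) (hb : 0 < b) (hac : a ≤ c) (hbc : b ≤ c) :
    (∀ z δ : ℝ, 1 < z → 0 < δ → Tendsto (fun N => prob N a b c (fun σ => ∀ x y : ℝ,
      δ ≤ lineF a b c (rN N a b c) x y z → frozen σ x y)) atTop (𝓝 1)) ∧
    (∀ δ : ℝ, 0 < δ → Tendsto (fun N => prob N a b c (fun σ =>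
      ∀ x ∈ Set.Icc (0 : ℝ) 1, ∀ y ∈ Set.Icc (0 : ℝ) 1,
        (∀ z, 1 < z → lineF a b c (rN N a b c) (x + δ) (y - δ) z ≤ 0) → ¬ frozen σ x y))
      atTop (𝓝 1)) ∧
    (∀ r : ℝ → ℝ, (∀ z, 1 < z → Tendsto (fun N => rN N a b c z) atTop (𝓝 (r z))) →
      (∀ z, 1 < z → DifferentiableAt ℝ r z) →
      frontier (frozenRegion a b c) ∩ Set.Ioo 0 1 ×ˢ Set.Ioo 0 1 =
          curve a b c r ∩ Set.Ioo 0 1 ×ˢ Set.Ioo 0 1 ∧
        curve a b c r ⊆ Set.Icc 0 1 ×ˢ Set.Icc 0 1 ∧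
        ∀ p ∈ (Set.Ioo 0 1 ×ˢ Set.Ioo 0 1 : Set (ℝ × ℝ)) \ curve a b c r,
          Tendsto (efp a b c p) atTop (𝓝 1) ∨ Tendsto (efp a b c p) atTop (𝓝 0)) :=
  ⟨fun _ _ hz hδ => part_one ha hb hac hbc hz hδ,
    fun _ hδ => (part_two' ha hb hac hbc hδ).choose_spec.2.2,
    fun r hr hd => part_three ha hb hac hbc r hr hd⟩

end Pool.Agent.Results.MP_413ea6_mp.TangentFKG
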